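import Mathlib

set_option autoImplicit false

namespace Pool.Agent.Results.MP_def192_nt.Small

open Finset

/-- no element divides a different element -/
def Prim (A : Finset ℕ) : Prop := ∀ a ∈ A, ∀ b ∈ A, a ∣ b → a = b

/-- total weight of `A` for the weighting `m ^ (-σ)` -/
noncomputable def S (σ : ℝ) (A : Finset ℕ) : ℝ := ∑ a ∈ A, (a : ℝ) ^ (-σ)

/-- largest weighted density of a primitive subset of `{1, …, n}` -/
noncomputable def F (σ : ℝ) (n : ℕ) : ℝ :=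
  sSup {x | ∃ A : Finset ℕ, A ⊆ Icc 1 n ∧ Prim A ∧ x = S σ A / S σ (Icc 1 n)}

lemma fin (σ : ℝ) (n : ℕ) :
    {x | ∃ A : Finset ℕ, A ⊆ Icc 1 n ∧ Prim A ∧ x = S σ A / S σ (Icc 1 n)}.Finite := by
  refine (((Icc 1 n).powerset.finite_toSet).image (fun A => S σ A / S σ (Icc 1 n))).subset ?_
  rintro x ⟨A, h, -, rfl⟩
  exact ⟨A, mem_coe.2 (mem_powerset.2 h), rfl⟩

lemma anti {σ : ℝ} (h0 : 0 ≤ σ) {a b : ℕ} (ha : 1 ≤ a) (hab : a ≤ b) :
    (b : ℝ) ^ (-σ) ≤ (a : ℝ) ^ (-σ) :=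
  Real.rpow_le_rpow_of_nonpos (by exact_mod_cast ha) (by exact_mod_cast hab) (by linarith)

lemma total {σ : ℝ} (h0 : 0 ≤ σ) (h1 : σ < 1) (n : ℕ) :
    (1 - σ) * S σ (Icc 1 n) ≤ (n : ℝ) ^ (1 - σ) := by
  induction n with
  | zero => simp only [S]; simp [Real.rpow_nonneg]
  | succ n ih =>
    have e : Icc 1 (n + 1) = insert (n + 1) (Icc 1 n) := by
      ext k; simp only [mem_Icc, mem_insert]; omega
    have hn : n + 1 ∉ Icc 1 n := by simp
    rw [e, S, sum_insert hn]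
    rw [S] at ih
    push_cast
    have p : (0:ℝ) < (n:ℝ) + 1 := by positivity
    have q : (0:ℝ) ≤ 1 + -(1 / ((n:ℝ) + 1)) := by
      have : 1 / ((n:ℝ) + 1) ≤ 1 := by rw [div_le_one p]; linarith [Nat.cast_nonneg (α := ℝ) n]
      linarith
    have b := rpow_one_add_le_one_add_mul_self (s := -(1 / ((n:ℝ) + 1))) (by linarith)
      (show 0 ≤ 1 - σ by linarith) (by linarith)
    have e1 : (n:ℝ) ^ (1 - σ) = ((n:ℝ) + 1) ^ (1 - σ) * (1 + -(1 / ((n:ℝ) + 1))) ^ (1 - σ) := by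
      rw [← Real.mul_rpow p.le q]; congr 1; field_simp; ring
    have e2 : ((n:ℝ) + 1) ^ (1 - σ) = ((n:ℝ) + 1) * ((n:ℝ) + 1) ^ (-σ) := by
      rw [sub_eq_add_neg, Real.rpow_add p, Real.rpow_one]
    have t : (0:ℝ) ≤ ((n:ℝ) + 1) ^ (1 - σ) := by positivity
    have b2 := mul_le_mul_of_nonneg_left b t
    have e3 : ((n:ℝ) + 1) ^ (1 - σ) * (1 + (1 - σ) * -(1 / ((n:ℝ) + 1)))
        = ((n:ℝ) + 1) ^ (1 - σ) - (1 - σ) * ((n:ℝ) + 1) ^ (-σ) := by
      rw [e2]; field_simp; ring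
    rw [← e1, e3] at b2
    linarith

lemma lower {σ : ℝ} (h0 : 0 ≤ σ) (h1 : σ < 1) (n : ℕ) (hn : 1 ≤ n) : (1 - σ) / 2 ≤ F σ n := by
  refine le_trans ?_ (le_csSup (fin σ n).bddAbove ⟨Ioc (n / 2) n, ?_, ?_, rfl⟩)
  · have n0 : (0:ℝ) < n := by exact_mod_cast hn
    have sp : 0 < S σ (Icc 1 n) := sum_pos (fun a ha => Real.rpow_pos_of_pos
      (by exact_mod_cast (mem_Icc.1 ha).1) _) ⟨1, by simpa using hn⟩
    rw [div_le_div_iff₀ (by norm_num) sp]
    refine (total h0 h1 n).trans ?_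
    have l := card_nsmul_le_sum (Ioc (n / 2) n) (fun a => (a : ℝ) ^ (-σ)) ((n:ℝ) ^ (-σ))
      (fun a ha => anti h0 (by have := mem_Ioc.1 ha; omega) (mem_Ioc.1 ha).2)
    rw [Nat.card_Ioc, nsmul_eq_mul] at l
    have c : (n:ℝ) ≤ ((n - n / 2 : ℕ) : ℝ) * 2 := by
      exact_mod_cast (show n ≤ (n - n / 2) * 2 by omega)
    have w : (0:ℝ) ≤ (n:ℝ) ^ (-σ) := by positivity
    rw [sub_eq_add_neg, Real.rpow_add n0, Real.rpow_one, S]
    nlinarith [mul_le_mul_of_nonneg_right c w]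
  · intro a ha
    simp only [mem_Ioc, mem_Icc] at ha ⊢
    omega
  · rintro a ha b hb ⟨c, rfl⟩
    simp only [mem_Ioc] at ha hb
    rcases c with _ | _ | c
    · omega
    · simp
    · exfalso
      have : a * (c + 1 + 1) = a * c + 2 * a := by ring
      omega

lemma alt {σ : ℝ} (h0 : 0 < σ) (n : ℕ) :
    2 * (∑ k ∈ (Icc 1 n).filter Odd, (k : ℝ) ^ (-σ)) - S σ (Icc 1 n)
      + (if Odd n then 0 else ((n + 1 : ℕ) : ℝ) ^ (-σ)) ≤ 1 := by
  induction n with
  | zero => simp [S]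
  | succ n ih =>
    have e : Icc 1 (n + 1) = insert (n + 1) (Icc 1 n) := by
      ext k; simp only [mem_Icc, mem_insert]; omega
    have hn : n + 1 ∉ Icc 1 n := by simp
    rw [e, S, sum_insert hn, filter_insert]
    rw [S] at ih
    by_cases h : Odd n
    · have h' : ¬ Odd (n + 1) := by rw [Nat.odd_iff] at *; omega
      rw [if_pos h] at ih
      rw [if_neg h', if_neg h']
      have := anti h0.le (a := n + 1) (b := n + 1 + 1) (by omega) (by omega)
      linarith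
    · have h' : Odd (n + 1) := by rw [Nat.odd_iff] at *; omega
      rw [if_neg h] at ih
      rw [if_pos h', if_pos h', sum_insert (fun g => hn (mem_filter.1 g).1)]
      linarith

lemma upper {σ : ℝ} (h0 : 0 < σ) (h1 : σ ≤ 1) : ∃ ε : ℝ, 0 < ε ∧ ε ≤ 1 ∧ ∃ n0 : ℕ, ∀ n, n0 < n →
    ∀ A : Finset ℕ, A ⊆ Icc 1 n → Prim A → 2 * S σ A ≤ (1 - ε) * S σ (Icc 1 n) := by
  classical
  have c2 : (2:ℝ) ^ (-σ) < 1 := Real.rpow_lt_one_of_one_lt_of_neg (by norm_num) (by linarith)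
  have c3 : (0:ℝ) < (3:ℝ) ^ (-σ) := by positivity
  set c : ℝ := min (1 - (2:ℝ) ^ (-σ)) ((3:ℝ) ^ (-σ)) with hc
  have hc0 : 0 < c := lt_min (by linarith) c3
  have hc1 : c ≤ 1 := (min_le_left _ _).trans (by linarith [Real.rpow_nonneg (show (0:ℝ) ≤ 2 by norm_num) (-σ)])
  obtain ⟨J0, hJ⟩ := (Real.tendsto_sum_range_one_div_nat_succ_atTop.eventually_gt_atTop (6 / c)).exists
  refine ⟨c / 36, by positivity, by linarith, 36 * J0 + 6, fun n hn A hA hP => ?_⟩
  obtain ⟨J, hJe⟩ : ∃ J, J = n / 36 + 1 := ⟨_, rfl⟩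
  let o : ℕ → ℕ := fun a => ordCompl[2] a
  have hdec : ∀ a, 2 ^ a.factorization 2 * o a = a := fun a => Nat.ordProj_mul_ordCompl_eq_self a 2
  have hod : ∀ a, o a ∣ a := fun a => Nat.ordCompl_dvd a 2
  have hmap : ∀ a ∈ A, o a ∈ (Icc 1 n).filter Odd := by
    intro a ha
    have h := mem_Icc.1 (hA ha)
    refine mem_filter.2 ⟨mem_Icc.2 ⟨Nat.pos_of_dvd_of_pos (hod a) h.1,
      (Nat.le_of_dvd h.1 (hod a)).trans h.2⟩, ?_⟩
    exact Nat.coprime_two_left.1 (Nat.coprime_ordCompl Nat.prime_two (by omega))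
  have hinj : ∀ a ∈ A, ∀ b ∈ A, o a = o b → a = b := by
    intro a ha b hb h
    rcases le_total (a.factorization 2) (b.factorization 2) with g | g
    · refine hP a ha b hb ?_
      calc a = 2 ^ a.factorization 2 * o b := by rw [← h, hdec]
        _ ∣ 2 ^ b.factorization 2 * o b := Nat.mul_dvd_mul_right (pow_dvd_pow 2 g) _
        _ = b := hdec b
    · refine (hP b hb a ha ?_).symm
      calc b = 2 ^ b.factorization 2 * o a := by rw [h, hdec]
        _ ∣ 2 ^ a.factorization 2 * o a := Nat.mul_dvd_mul_right (pow_dvd_pow 2 g) _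
        _ = a := hdec a
  let g : ℕ → ℝ := fun k => ∑ a ∈ A.filter (fun a => o a = k), (a : ℝ) ^ (-σ)
  have hg : ∀ k (B : ℝ), 0 ≤ B → (∀ a ∈ A, o a = k → (a : ℝ) ^ (-σ) ≤ B) → g k ≤ B := by
    intro k B hB h
    rcases (A.filter (fun a => o a = k)).eq_empty_or_nonempty with e | ⟨a, ha⟩
    · simp only [g, e, sum_empty]; exact hB
    · have ha' := mem_filter.1 ha
      have : A.filter (fun a => o a = k) = {a} := eq_singleton_iff_unique_mem.2 ⟨ha, fun b hb =>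
        hinj b (mem_filter.1 hb).1 a ha'.1 ((mem_filter.1 hb).2.trans ha'.2.symm)⟩
      simp only [g, this, sum_singleton]; exact h a ha'.1 ha'.2
  have hS : S σ A = ∑ k ∈ (Icc 1 n).filter Odd, g k := (sum_fiberwise_of_maps_to hmap _).symm
  let h : ℕ → ℝ := fun k => (k : ℝ) ^ (-σ) - g k
  have hh : ∀ k, 1 ≤ k → 0 ≤ h k := fun k hk => sub_nonneg.2 (hg k _ (by positivity) fun a ha e =>
    anti h0.le hk (e ▸ Nat.le_of_dvd (mem_Icc.1 (hA ha)).1 (hod a)))
  have w2 : ∀ j : ℕ, c / 6 * (1 / ((j:ℝ) + 1)) ≤ c * ((6 * j + 1 : ℕ) : ℝ) ^ (-σ) := by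
    intro j
    set m := 6 * j + 1 with hm
    have hm1 : (1:ℝ) ≤ m := by exact_mod_cast (show 1 ≤ m by omega)
    have w1 : 1 / 6 * (1 / ((j:ℝ) + 1)) ≤ (m:ℝ) ^ (-σ) := by
      refine le_trans ?_ (Real.rpow_le_rpow_of_exponent_le hm1 (neg_le_neg h1))
      rw [Real.rpow_neg_one, ← one_div, one_div_mul_one_div]
      apply one_div_le_one_div_of_le (by linarith)
      rw [hm]; push_cast; linarith
    have := mul_le_mul_of_nonneg_left w1 hc0.le
    linarith
  have pair : ∀ j : ℕ, c * ((6 * j + 1 : ℕ) : ℝ) ^ (-σ) ≤ h (6 * j + 1) + h (3 * (6 * j + 1)) := by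
    intro j
    set m := 6 * j + 1 with hm
    have w0 : (0:ℝ) ≤ (m:ℝ) ^ (-σ) := by positivity
    have p1 := hh m (by omega)
    have p3 := hh (3 * m) (by omega)
    by_cases hmA : m ∈ A
    · have : g (3 * m) ≤ 0 := hg _ _ le_rfl fun a ha e => by
        exfalso
        have d : 3 * m ∣ a := e ▸ hod a
        have := hP m hmA a ha (Dvd.dvd.trans (Dvd.intro_left 3 rfl) d)
        have := Nat.le_of_dvd (by omega) (this ▸ d)
        omega
      have e : ((3 * m : ℕ) : ℝ) ^ (-σ) = 3 ^ (-σ) * (m:ℝ) ^ (-σ) := by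
        push_cast; exact Real.mul_rpow (by norm_num) (by positivity)
      have := mul_le_mul_of_nonneg_right (min_le_right (1 - (2:ℝ) ^ (-σ)) ((3:ℝ) ^ (-σ))) w0
      simp only [h] at p1 ⊢
      linarith
    · have e : ((2 * m : ℕ) : ℝ) ^ (-σ) = 2 ^ (-σ) * (m:ℝ) ^ (-σ) := by
        push_cast; exact Real.mul_rpow (by norm_num) (by positivity)
      have : g m ≤ ((2 * m : ℕ) : ℝ) ^ (-σ) := hg _ _ (by positivity) fun a ha e => by
        apply anti h0.le (by omega)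
        obtain ⟨d, hd⟩ : m ∣ a := e ▸ hod a
        have a1 := (mem_Icc.1 (hA ha)).1
        rcases d with _ | _ | d
        · omega
        · exact absurd (by simpa [hd] using ha) hmA
        · have : m * (d + 1 + 1) = m * d + 2 * m := by ring
          omega
      have := mul_le_mul_of_nonneg_right (min_le_left (1 - (2:ℝ) ^ (-σ)) ((3:ℝ) ^ (-σ))) w0
      simp only [h] at p3 ⊢
      linarith
  have tot : ∑ j ∈ range J, (h (6 * j + 1) + h (3 * (6 * j + 1))) ≤ ∑ k ∈ (Icc 1 n).filter Odd, h k := by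
    rw [sum_add_distrib, ← sum_image (s := range J) (g := fun j => 6 * j + 1) (f := h)
        (fun a _ b _ e => by simp only at e; omega),
      ← sum_image (s := range J) (g := fun j => 3 * (6 * j + 1)) (f := h)
        (fun a _ b _ e => by simp only at e; omega), ← sum_union]
    · apply sum_le_sum_of_subset_of_nonneg
      · intro k hk
        simp only [mem_union, mem_image, mem_range, mem_filter, mem_Icc, Nat.odd_iff] at hk ⊢
        rcases hk with ⟨j, hj, rfl⟩ | ⟨j, hj, rfl⟩ <;> omega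
      · intro k hk _
        exact hh k (mem_Icc.1 (mem_filter.1 hk).1).1
    · rw [disjoint_left]
      intro k hk hk'
      simp only [mem_image, mem_range] at hk hk'
      obtain ⟨a, -, rfl⟩ := hk
      obtain ⟨b, -, e⟩ := hk'
      omega
  have big : 1 < ∑ j ∈ range J, c * ((6 * j + 1 : ℕ) : ℝ) ^ (-σ) := by
    refine lt_of_lt_of_le ?_ (sum_le_sum fun j _ => w2 j)
    rw [← mul_sum]
    have hJ' := hJ.trans_le (sum_le_sum_of_subset_of_nonneg
      (range_subset_range.2 (show J0 ≤ J by omega)) (fun i _ _ => by positivity))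
    have := mul_lt_mul_of_pos_left hJ' (show 0 < c / 6 by positivity)
    rwa [show c / 6 * (6 / c) = 1 by field_simp] at this
  have cov : S σ (Icc 1 n) ≤ ∑ j ∈ range J, 36 * ((6 * j + 1 : ℕ) : ℝ) ^ (-σ) := by
    rw [S, ← sum_fiberwise_of_maps_to (s := Icc 1 n) (t := range J) (g := fun k => k / 36)
      (fun k hk => by have := mem_Icc.1 hk; simp only [mem_range]; omega)]
    refine sum_le_sum fun j _ => ?_
    refine (sum_le_card_nsmul _ _ (((6 * j + 1 : ℕ) : ℝ) ^ (-σ)) (fun k hk => anti h0.le (by omega) (by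
      have := mem_filter.1 hk
      have h2 := mem_Icc.1 this.1
      have h3 := this.2
      omega))).trans ?_
    rw [nsmul_eq_mul]
    apply mul_le_mul_of_nonneg_right _ (by positivity)
    have : ((Icc 1 n).filter fun k => k / 36 = j).card ≤ (Ico (36 * j) (36 * j + 36)).card :=
      card_le_card fun k hk => by
        have h3 := (mem_filter.1 hk).2
        simp only [mem_Ico]; omega
    rw [Nat.card_Ico, Nat.add_sub_cancel_left] at this
    exact_mod_cast this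
  have pr := sum_le_sum fun j (_ : j ∈ range J) => pair j
  rw [← mul_sum] at big cov pr
  have al := alt h0 n
  have : (0:ℝ) ≤ if Odd n then 0 else ((n + 1 : ℕ) : ℝ) ^ (-σ) := by split_ifs <;> positivity
  have tot2 := pr.trans tot
  simp only [h, sum_sub_distrib] at tot2
  have cv := mul_le_mul_of_nonneg_left cov hc0.le
  rw [hS]
  linarith

theorem result (σ₂ : ℝ) (h0 : 0 < σ₂) (h1 : σ₂ ≤ 1) : ∃ ε : ℝ, 0 < ε ∧ ∀ σ₁ : ℝ, 0 ≤ σ₁ → σ₁ < ε →
    ∃ n0 : ℕ, ∀ n, n0 < n → F σ₂ n < F σ₁ n := by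
  obtain ⟨ε, e0, e1, n0, h⟩ := upper h0 h1
  refine ⟨ε, e0, fun σ s0 s1 => ⟨n0, fun n hn =>
    lt_of_lt_of_le ?_ (lower s0 (by linarith) n (by omega))⟩⟩
  have hne : {x | ∃ A : Finset ℕ, A ⊆ Icc 1 n ∧ Prim A ∧ x = S σ₂ A / S σ₂ (Icc 1 n)}.Nonempty :=
    ⟨_, ∅, empty_subset _, fun a ha => by simp at ha, rfl⟩
  obtain ⟨A, hA, hP, e⟩ := hne.csSup_mem (fin σ₂ n)
  have := h n hn A hA hP
  have sp : 0 < S σ₂ (Icc 1 n) := sum_pos (fun a ha => Real.rpow_pos_of_pos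
    (by exact_mod_cast (mem_Icc.1 ha).1) _) ⟨1, by simp; omega⟩
  rw [F, e, div_lt_div_iff₀ sp (by norm_num)]
  nlinarith [mul_pos (sub_pos.2 s1) sp]

end Pool.Agent.Results.MP_def192_nt.Small
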